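import Pool.Agent.V5helper79.CC.Defs

/-!
# Project CC: packings and coverings of the triples of the complement of a chordal graph
-/

set_option autoImplicit false
set_option linter.unusedSectionVars false

namespace Pool.Agent.V5helper79.CC

open Finset

variable {V : Type} [DecidableEq V]

/-- connected sets of vertices -/
def Conn (G : SimpleGraph V) (U : Finset V) : Prop :=
  ∀ P ⊆ U, P.Nonempty → P ≠ U → ∃ x ∈ P, ∃ y ∈ U, y ∉ P ∧ G.Adj x y

/-- a neighbour after `q` -/
theorem exists_next {G : SimpleGraph V} (ρ : V → ℕ) (hρ : Function.Injective ρ)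
    (peo : ∀ w x y, ρ w < ρ x → ρ w < ρ y → G.Adj w x → G.Adj w y → x ≠ y → G.Adj x y) :
    ∀ (n : ℕ) (U : Finset V), U.card = n → Conn G U → ∀ q ∈ U, ∀ w ∈ U, ρ q < ρ w →
      ∃ u ∈ U, ρ q < ρ u ∧ G.Adj q u := by
  intro n
  induction n with
  | zero =>
    intro U hU _ q hq
    rw [card_eq_zero] at hU
    subst hU
    simp at hq
  | succ n ih =>
    intro U hU hc q hq w hw hqw
    obtain ⟨z, hz, hmin⟩ := exists_min_image U ρ ⟨q, hq⟩
    by_cases hzq : z = q
    · subst hzq
      obtain ⟨x, hx, y, hy, hyP, hxy⟩ := hc {z} (by simpa using hz) (singleton_nonempty z) (by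
        rintro h
        rw [← h, mem_singleton] at hw
        rw [hw] at hqw
        exact lt_irrefl _ hqw)
      rw [mem_singleton] at hx hyP
      subst hx
      exact ⟨y, hy, lt_of_le_of_ne (hmin y hy) fun e => hyP (hρ e).symm, hxy⟩
    · have hlt : ∀ u ∈ U, u ≠ z → ρ z < ρ u := fun u hu huz =>
        lt_of_le_of_ne (hmin u hu) fun e => huz (hρ e).symm
      have hc' : Conn G (U.erase z) := by
        intro P hP hPn hPU
        have hzP : z ∉ P := fun h => (mem_erase.1 (hP h)).1 rfl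
        obtain ⟨x, hx, y, hy, hyP, hxy⟩ := hc P (hP.trans (erase_subset _ _)) hPn (by
          rintro rfl
          exact hzP hz)
        by_cases hyz : y = z
        · subst hyz
          obtain ⟨x', hx', y', hy', hyP', hxy'⟩ := hc (insert y P)
            (insert_subset hz (hP.trans (erase_subset _ _))) (insert_nonempty _ _) (by
              rintro h
              apply hPU
              rw [← h, erase_insert hzP])
          rw [mem_insert, not_or] at hyP'
          rw [mem_insert] at hx'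
          rcases hx' with rfl | hx'
          · refine ⟨x, hx, y', mem_erase.2 ⟨hyP'.1, hy'⟩, hyP'.2, ?_⟩
            refine peo x' x y' (hlt x ((hP.trans (erase_subset _ _)) hx) ?_) (hlt y' hy' hyP'.1) hxy.symm hxy' ?_
            · rintro rfl
              exact hzP hx
            · rintro rfl
              exact hyP'.2 hx
          · exact ⟨x', hx', y', mem_erase.2 ⟨hyP'.1, hy'⟩, hyP'.2, hxy'⟩
        · exact ⟨x, hx, y, mem_erase.2 ⟨hyz, hy⟩, hyP, hxy⟩
      have hwz : w ≠ z := by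
        rintro rfl
        exact absurd (hmin q hq) (not_le.2 hqw)
      obtain ⟨u, hu, h1, h2⟩ := ih (U.erase z) (by rw [card_erase_of_mem hz, hU]; rfl) hc' q
        (mem_erase.2 ⟨fun e => hzq e.symm, hq⟩) w (mem_erase.2 ⟨hwz, hw⟩) hqw
      exact ⟨u, (mem_erase.1 hu).2, h1, h2⟩

theorem conn_triple {K : SimpleGraph V} {T : Finset V} (h : Triple K T) : Conn Kᶜ T := by
  obtain ⟨_, b, hb, h1⟩ := h
  intro P hP hPn hPT
  by_cases hbP : b ∈ P
  · obtain ⟨y, hy, hyP⟩ : ∃ y ∈ T, y ∉ P := by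
      by_contra hcon
      push Not at hcon
      exact hPT (Subset.antisymm hP hcon)
    refine ⟨b, hbP, y, hy, hyP, ?_⟩
    rw [SimpleGraph.compl_adj]
    refine ⟨?_, h1 y hy⟩
    rintro rfl
    exact hyP hbP
  · obtain ⟨x, hx⟩ := hPn
    refine ⟨x, hx, b, hb, hbP, ?_⟩
    rw [SimpleGraph.compl_adj]
    refine ⟨?_, fun h => h1 x (hP hx) h.symm⟩
    rintro rfl
    exact hbP hx

theorem conn_union {G : SimpleGraph V} {S T : Finset V} (hS : Conn G S) (hT : Conn G T) {x y : V} (hx : x ∈ S)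
    (hy : y ∈ T) (hxy : x = y ∨ G.Adj x y) : Conn G (S ∪ T) := by
  intro P hP hPn hPU
  have aux : ∀ R : Finset V, R ⊆ S ∪ T → Conn G R → (∀ u ∈ R, u ∈ P) ∨ (∀ u ∈ R, u ∉ P) ∨
      ∃ x ∈ P, ∃ y ∈ S ∪ T, y ∉ P ∧ G.Adj x y := by
    intro R hR hc
    by_cases h1 : ∃ u ∈ R, u ∈ P
    · by_cases h2 : ∃ u ∈ R, u ∉ P
      · obtain ⟨u, hu, huP⟩ := h1
        obtain ⟨v, hv, hvP⟩ := h2
        obtain ⟨a, ha, b, hb, hbP, hab⟩ := hc (R ∩ P) inter_subset_left ⟨u, mem_inter.2 ⟨hu, huP⟩⟩ (by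
          intro h
          rw [← h, mem_inter] at hv
          exact hvP hv.2)
        refine Or.inr (Or.inr ⟨a, (mem_inter.1 ha).2, b, hR hb, fun h => hbP (mem_inter.2 ⟨hb, h⟩), hab⟩)
      · push Not at h2
        exact Or.inl h2
    · push Not at h1
      exact Or.inr (Or.inl h1)
  rcases aux S subset_union_left hS with h1 | h1 | h1
  · rcases aux T subset_union_right hT with h2 | h2 | h2
    · exfalso
      apply hPU
      refine Subset.antisymm hP fun u hu => ?_
      rcases mem_union.1 hu with h | h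
      · exact h1 u h
      · exact h2 u h
    · rcases hxy with rfl | hxy
      · exact absurd (h1 x hx) (h2 x hy)
      · exact ⟨x, h1 x hx, y, mem_union_right _ hy, h2 y hy, hxy⟩
    · exact h2
  · rcases aux T subset_union_right hT with h2 | h2 | h2
    · rcases hxy with rfl | hxy
      · exact absurd (h2 x hy) (h1 x hx)
      · exact ⟨y, h2 y hy, x, mem_union_left _ hx, h1 x hx, hxy.symm⟩
    · exfalso
      obtain ⟨u, hu⟩ := hPn
      rcases mem_union.1 (hP hu) with h | h
      · exact h1 u h hu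
      · exact h2 u h hu
    · exact h2
  · exact h1

/-- **Packings and coverings** in a set of vertices. -/
theorem min_max {K : SimpleGraph V} (ρ : V → ℕ) (hρ : Function.Injective ρ)
    (peo : ∀ w x y, ρ w < ρ x → ρ w < ρ y → Kᶜ.Adj w x → Kᶜ.Adj w y → x ≠ y → Kᶜ.Adj x y) :
    ∀ (n : ℕ) (D : Finset V), D.card = n → ∃ (k : ℕ) (T Q : Fin k → Finset V),
      (∀ i, Triple K (T i) ∧ T i ⊆ D) ∧ (∀ i j, i ≠ j → ∀ x ∈ T i, ∀ y ∈ T j, K.Adj x y) ∧
      (∀ i, ∀ x ∈ Q i, ∀ y ∈ Q i, ¬ K.Adj x y) ∧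
      ∀ S, Triple K S → S ⊆ D → ∃ i, ∃ x ∈ S, x ∈ Q i := by
  classical
  intro n
  induction n using Nat.strong_induction_on with
  | _ n ih =>
  intro D hD
  by_cases h0 : ∃ S, Triple K S ∧ S ⊆ D
  · obtain ⟨S₁, hS₁, hmin⟩ := exists_min_image (D.powerset.filter fun S => Triple K S) (fun S => S.sup ρ) (by
      obtain ⟨S, h1, h2⟩ := h0
      exact ⟨S, mem_filter.2 ⟨mem_powerset.2 h2, h1⟩⟩)
    rw [mem_filter, mem_powerset] at hS₁
    obtain ⟨hSD, hSt⟩ := hS₁
    have hSn : S₁.Nonempty := by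
      rw [← card_pos, hSt.1]
      norm_num
    obtain ⟨q, hq, hqmax⟩ := exists_max_image S₁ ρ hSn
    have hqsup : S₁.sup ρ = ρ q := le_antisymm (Finset.sup_le hqmax) (le_sup hq)
    obtain ⟨Q₁, hQ₁⟩ : ∃ Q₁ : Finset V, Q₁ = D.filter fun x => x = q ∨ (ρ q < ρ x ∧ Kᶜ.Adj q x) := ⟨_, rfl⟩
    have hind : ∀ x ∈ Q₁, ∀ y ∈ Q₁, ¬ K.Adj x y := by
      intro x hx y hy hxy
      rw [hQ₁, mem_filter] at hx hy
      rcases hx.2 with rfl | ⟨hx1, hx2⟩
      · rcases hy.2 with rfl | ⟨hy1, hy2⟩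
        · exact K.loopless.irrefl _ hxy
        · exact ((SimpleGraph.compl_adj _ _ _).1 hy2).2 hxy
      · rcases hy.2 with rfl | ⟨hy1, hy2⟩
        · exact ((SimpleGraph.compl_adj _ _ _).1 hx2).2 hxy.symm
        · exact ((SimpleGraph.compl_adj _ _ _).1 (peo q x y hx1 hy1 hx2 hy2 (K.ne_of_adj hxy))).2 hxy
    have hqQ : q ∈ Q₁ := by
      rw [hQ₁, mem_filter]
      exact ⟨hSD hq, Or.inl rfl⟩
    obtain ⟨k, T, Q, h1, h2, h3, h4⟩ := ih (D \ Q₁).card (by
      rw [← hD]
      refine card_lt_card ⟨sdiff_subset, fun h => ?_⟩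
      exact (mem_sdiff.1 (h (hSD hq))).2 hqQ) (D \ Q₁) rfl
    -- the triple `S₁` is joined to the triples outside of `Q₁`
    have key : ∀ S, Triple K S → S ⊆ D \ Q₁ → ∀ x ∈ S₁, ∀ y ∈ S, K.Adj x y := by
      intro S hS hSQ x hx y hy
      by_contra hcon
      have htouch : x = y ∨ Kᶜ.Adj x y := by
        by_cases hxy : x = y
        · exact Or.inl hxy
        · exact Or.inr ((SimpleGraph.compl_adj _ _ _).2 ⟨hxy, hcon⟩)
      have hc := conn_union (conn_triple hSt) (conn_triple hS) hx hy htouch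
      obtain ⟨w, hw, hwmax⟩ := exists_max_image S ρ ⟨y, hy⟩
      have hwsup : S.sup ρ = ρ w := le_antisymm (Finset.sup_le hwmax) (le_sup hw)
      have hle := hmin S (mem_filter.2 ⟨mem_powerset.2 (hSQ.trans sdiff_subset), hS⟩)
      rw [hqsup, hwsup] at hle
      have hlt : ρ q < ρ w := by
        refine lt_of_le_of_ne hle fun e => ?_
        have : q = w := hρ e
        subst this
        exact (mem_sdiff.1 (hSQ hw)).2 hqQ
      obtain ⟨u, hu, hu1, hu2⟩ := exists_next ρ hρ peo _ _ rfl hc q (mem_union_left _ hq) w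
        (mem_union_right _ hw) hlt
      rcases mem_union.1 hu with h | h
      · exact absurd (hqmax u h) (not_le.2 hu1)
      · refine (mem_sdiff.1 (hSQ h)).2 ?_
        rw [hQ₁, mem_filter]
        exact ⟨(mem_sdiff.1 (hSQ h)).1, Or.inr ⟨hu1, hu2⟩⟩
    refine ⟨k + 1, Fin.cons S₁ T, Fin.cons Q₁ Q, ?_, ?_, ?_, ?_⟩
    · intro i
      refine Fin.cases ?_ (fun i => ?_) i
      · exact ⟨hSt, hSD⟩
      · exact ⟨(h1 i).1, (h1 i).2.trans sdiff_subset⟩
    · intro i j
      refine Fin.cases ?_ (fun i => ?_) i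
      · refine Fin.cases ?_ (fun j => ?_) j
        · intro h
          exact absurd rfl h
        · intro _ x hx y hy
          exact key (T j) (h1 j).1 (h1 j).2 x hx y hy
      · refine Fin.cases ?_ (fun j => ?_) j
        · intro _ x hx y hy
          exact (key (T i) (h1 i).1 (h1 i).2 y hy x hx).symm
        · intro h x hx y hy
          exact h2 i j (fun e => h (by rw [e])) x hx y hy
    · intro i
      refine Fin.cases ?_ (fun i => ?_) i
      · exact hind
      · exact h3 i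
    · intro S hS hSD'
      by_cases hmeet : ∃ x ∈ S, x ∈ Q₁
      · obtain ⟨x, hx, hxQ⟩ := hmeet
        exact ⟨0, x, hx, hxQ⟩
      · push Not at hmeet
        obtain ⟨i, x, hx, hxQ⟩ := h4 S hS fun x hx => mem_sdiff.2 ⟨hSD' hx, hmeet x hx⟩
        exact ⟨i.succ, x, hx, hxQ⟩
  · push Not at h0
    exact ⟨0, Fin.elim0, Fin.elim0, fun i => i.elim0, fun i => i.elim0, fun i => i.elim0,
      fun S hS hSD => absurd hSD (h0 S hS)⟩

end Pool.Agent.V5helper79.CC
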