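import Mathlib

/-!
# Project CC: triples of vertices, packings and coverings
-/

set_option autoImplicit false

namespace Pool.Agent.V5helper79.CC

variable {V : Type}

/-- `T` consists of three vertices, one of which is adjacent to none of the other two. -/
def Triple (K : SimpleGraph V) (T : Finset V) : Prop :=
  T.card = 3 ∧ ∃ b ∈ T, ∀ x ∈ T, ¬ K.Adj b x

/-- There are `k` triples such that the vertices of different triples are adjacent. -/
def Packing (K : SimpleGraph V) (k : ℕ) : Prop :=
  ∃ T : Fin k → Finset V, (∀ i, Triple K (T i)) ∧ ∀ i j, i ≠ j → ∀ x ∈ T i, ∀ y ∈ T j, K.Adj x y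

/-- There are `k` independent sets such that every triple meets one of them. -/
def Covering (K : SimpleGraph V) (k : ℕ) : Prop :=
  ∃ Q : Fin k → Finset V, (∀ i, ∀ x ∈ Q i, ∀ y ∈ Q i, ¬ K.Adj x y) ∧
    ∀ T, Triple K T → ∃ i, ∃ x ∈ T, x ∈ Q i

end Pool.Agent.V5helper79.CC
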