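import Pool.Agent.V5helper79.CC.Van
import Pool.Agent.V5helper75.BK.Class
import Pool.Agent.Q134.SE.Chi

/-!
# Project CC: packings give flats and nonzero `ℓ²`-homology
-/

set_option autoImplicit false
set_option linter.unusedSectionVars false

namespace Pool.Agent.V5helper79.CC

open Finset Pool.Agent.W907.SG Pool.Agent.W907.SM Pool.Agent.R782.Bal Pool.Agent.V5helper75.VO
open Pool.Agent.V5helper75.BK
open Pool.Agent.TH652.Join (join ljoin)
open Pool.Agent.TH652.Above (lv_set lv_univ lv_img lv_add)
open Pool.Agent.N13.EU (lv_few)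
open Pool.Agent.Q134.SE (tm chiW_induce)

/-- sets of vertices built from `i` pairwise joined triples -/
inductive Chain {V : Type} [DecidableEq V] (K : SimpleGraph V) : Finset V → ℕ → Prop
  | nil : Chain K ∅ 0
  | cons {A T : Finset V} {i : ℕ} : Chain K A i → Triple K T → (∀ x ∈ A, ∀ y ∈ T, K.Adj x y) →
      Chain K (A ∪ T) (i + 1)

theorem chain_of_packing {V : Type} [DecidableEq V] {K : SimpleGraph V} {k : ℕ} (h : Packing K k) (i : ℕ)
    (hi : i ≤ k) : ∃ A, Chain K A i := by
  obtain ⟨T, h1, h2⟩ := h
  suffices h3 : ∀ i, ∀ _ : i ≤ k, ∃ A, Chain K A i ∧ ∀ x ∈ A, ∃ j : Fin k, (j : ℕ) < i ∧ x ∈ T j by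
    obtain ⟨A, hA, _⟩ := h3 i hi
    exact ⟨A, hA⟩
  intro i
  induction i with
  | zero => exact fun _ => ⟨∅, Chain.nil, fun x hx => absurd hx (by simp)⟩
  | succ i ih =>
    intro hi
    obtain ⟨A, hA, h3⟩ := ih (by omega)
    refine ⟨A ∪ T ⟨i, hi⟩, Chain.cons hA (h1 _) fun x hx y hy => ?_, fun x hx => ?_⟩
    · obtain ⟨j, hj, hxj⟩ := h3 x hx
      exact h2 j ⟨i, hi⟩ (fun e => by rw [e] at hj; exact lt_irrefl _ hj) x hxj y hy
    · rcases mem_union.1 hx with hx | hx
      · obtain ⟨j, hj, hxj⟩ := h3 x hx
        exact ⟨j, by omega, hxj⟩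
      · exact ⟨⟨i, hi⟩, Nat.lt_succ_self i, hx⟩

/-- the three vertices -/
theorem Triple.vertices {V : Type} [DecidableEq V] {K : SimpleGraph V} {T : Finset V} (h : Triple K T) :
    ∃ a b c, a ≠ b ∧ c ≠ b ∧ a ≠ c ∧ ¬ K.Adj a b ∧ ¬ K.Adj c b ∧ T = {a, b, c} := by
  obtain ⟨h3, b, hb, h1⟩ := h
  have h4 : (T.erase b).card = 2 := by rw [card_erase_of_mem hb, h3]
  obtain ⟨a, c, hac, h5⟩ := card_eq_two.1 h4
  have ha : a ∈ T.erase b := by rw [h5]; simp
  have hc : c ∈ T.erase b := by rw [h5]; simp
  refine ⟨a, b, c, (mem_erase.1 ha).1, (mem_erase.1 hc).1, hac, fun h => h1 a (mem_erase.1 ha).2 h.symm,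
    fun h => h1 c (mem_erase.1 hc).2 h.symm, ?_⟩
  rw [← insert_erase hb, h5]
  ext x
  simp only [mem_insert, mem_singleton]
  tauto

theorem adj_disj {V : Type} {K : SimpleGraph V} {A T : Finset V} (h : ∀ x ∈ A, ∀ y ∈ T, K.Adj x y) {x : V}
    (hx : x ∈ A) (hy : x ∈ T) : False := K.loopless.irrefl _ (h x hx x hy)

theorem Chain.fl {V : Type} [DecidableEq V] {K : SimpleGraph V} {A : Finset V} {i : ℕ} (h : Chain K A i) :
    Fl (W (K.induce (A : Set V))) i := by
  induction h with
  | nil => exact fl_zero _
  | @cons A T i _ hT hadj ih =>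
    obtain ⟨a, b, c, hab, hcb, hac, nab, ncb, rfl⟩ := hT.vertices
    have h5 : Fl (W (K.induce (({a, b, c} : Finset V) : Set V))) 1 := by
      refine fl_three (a := ⟨a, by simp⟩) (b := ⟨b, by simp⟩) (c := ⟨c, by simp⟩) ?_ ?_ ?_ nab ncb
      · exact fun h => hab (Subtype.mk.inj h)
      · exact fun h => hcb (Subtype.mk.inj h)
      · exact fun h => hac (Subtype.mk.inj h)
    refine (ih.join h5).emb (fun x => match x with
      | Sum.inl y => ⟨y.1, by rw [coe_union]; exact Or.inl y.2⟩
      | Sum.inr p => ⟨p.1, by rw [coe_union]; exact Or.inr p.2⟩) ?_ ?_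
    · rintro (x | x) (y | y) hxy
      · exact congrArg _ (Subtype.ext (Subtype.mk.inj hxy))
      · have h7 : x.1 = y.1 := Subtype.mk.inj hxy
        exact absurd h7 (K.ne_of_adj (hadj x.1 x.2 y.1 y.2))
      · have h7 : x.1 = y.1 := Subtype.mk.inj hxy
        exact absurd h7.symm (K.ne_of_adj (hadj y.1 y.2 x.1 x.2))
      · exact congrArg _ (Subtype.ext (Subtype.mk.inj hxy))
    · rintro (x | x) (y | y)
      · exact Iff.rfl
      · exact iff_of_true (hadj x.1 x.2 y.1 y.2) trivial
      · exact iff_of_true (hadj y.1 y.2 x.1 x.2).symm trivial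
      · exact Iff.rfl

/-- packings give flats -/
theorem fl_packing {V : Type} {K : SimpleGraph V} {k : ℕ} (h : Packing K k) : Fl (W K) k := by
  classical
  obtain ⟨A, hA⟩ := chain_of_packing h k le_rfl
  exact hA.fl.emb (fun x => x.1) (fun x y h => Subtype.ext h) fun a b => Iff.rfl

/-- a single triple -/
theorem lv_triple {V : Type} [Finite V] [DecidableEq V] {K : SimpleGraph V} {T : Finset V} (h : Triple K T) (q : ℕ)
    (hq : q ≠ 1) : LV (K.induce (T : Set V)) q := by
  rcases Nat.lt_or_ge q 2 with h1 | h1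
  · obtain rfl : q = 0 := by omega
    obtain ⟨a, b, c, hab, hcb, hac, nab, ncb, rfl⟩ := h.vertices
    refine lv_add K _ c (by simp) 0 ?_ fun j hj => by omega
    refine lsusp _ _ (⟨a, ⟨by simp, hac⟩⟩ : ↥((({a, b, c} : Finset V) : Set V) \ {c})) ⟨b, ⟨by simp, fun e => hcb ?_⟩⟩
      0 (fun e => hab (congrArg Subtype.val e)) nab ?_
    · exact (Set.mem_singleton_iff.1 e).symm
    · rintro ⟨u, hu, huc⟩ hu1 hu2
      exfalso
      simp only [coe_insert, coe_singleton, Set.mem_insert_iff, Set.mem_singleton_iff] at hu huc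
      rcases hu with rfl | rfl | rfl
      · exact hu1 rfl
      · exact hu2 rfl
      · exact huc rfl
  · refine lv_few K 3 q _ ?_ (by omega) (by omega)
    rw [Set.ncard_coe_finset, h.1]

theorem Chain.lv {V : Type} [Finite V] [DecidableEq V] {K : SimpleGraph V} {A : Finset V} {i : ℕ}
    (h : Chain K A i) : ∀ j, j ≠ i → LV (K.induce (A : Set V)) j := by
  induction h with
  | nil =>
    intro j hj
    have : IsEmpty ((∅ : Finset V) : Set V) := ⟨fun x => absurd x.2 (by simp)⟩
    exact lempty _ _ j (by omega)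
  | @cons A T i _ hT hadj ih =>
    intro j hj
    have h1 : LV (join (K.induce (A : Set V)) (K.induce (T : Set V))) j := by
      refine ljoin _ _ j fun p q hpq => ?_
      by_cases hp : p = i
      · right
        exact lv_triple hT q (by omega)
      · exact Or.inl (ih p hp)
    rw [← lv_univ] at h1
    have h2 := (lv_img (G := K) (fun x : ↥(A : Set V) ⊕ ↥(T : Set V) => match x with
      | Sum.inl a => a.1
      | Sum.inr a => a.1) Set.univ ?_ ?_ j).1 h1
    · refine lv_set ?_ h2
      ext x
      rw [coe_union]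
      simp only [Set.image_univ, Set.mem_range, Set.mem_union]
      constructor
      · rintro (hx | hx)
        · exact ⟨Sum.inl ⟨x, hx⟩, rfl⟩
        · exact ⟨Sum.inr ⟨x, hx⟩, rfl⟩
      · rintro ⟨y | y, rfl⟩
        · exact Or.inl y.2
        · exact Or.inr y.2
    · rintro (a | a) _ (b | b) _ hab
      · exact congrArg Sum.inl (Subtype.ext hab)
      · have h3 : a.1 = b.1 := hab
        exact absurd h3 (K.ne_of_adj (hadj a.1 a.2 b.1 b.2))
      · have h3 : a.1 = b.1 := hab
        exact absurd h3.symm (K.ne_of_adj (hadj b.1 b.2 a.1 a.2))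
      · exact congrArg Sum.inr (Subtype.ext hab)
    · rintro (a | a) _ (b | b) _
      · exact Iff.rfl
      · exact iff_of_true (hadj a.1 a.2 b.1 b.2) trivial
      · exact iff_of_true (hadj b.1 b.2 a.1 a.2).symm trivial
      · exact Iff.rfl

/-- the Euler characteristic of a special subgroup -/
noncomputable def chiF {V : Type} [DecidableEq V] (K : SimpleGraph V) (A : Finset V) : ℚ := ∑ S ∈ A.powerset, tm K S

open Classical in
theorem chi_insert {V : Type} [DecidableEq V] (K : SimpleGraph V) (A B : Finset V) (v : V) (hv : v ∉ A)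
    (hB : ∀ x, x ∈ B ↔ x ∈ A ∧ K.Adj v x) : chiF K (insert v A) = chiF K A - 1 / 2 * chiF K B := by
  have h1 : ∑ S ∈ A.powerset, tm K (insert v S) = - (1 / 2) * chiF K B := by
    unfold chiF
    rw [mul_sum]
    have hBA : B.powerset ⊆ A.powerset := powerset_mono.2 fun x hx => ((hB x).1 hx).1
    rw [← sum_subset hBA (f := fun S => tm K (insert v S))]
    · refine sum_congr rfl fun S hS => ?_
      rw [mem_powerset] at hS
      have hvS : v ∉ S := fun h => hv ((hB v).1 (hS h)).1
      unfold tm
      have h2 : K.IsClique ((insert v S : Finset V) : Set V) ↔ K.IsClique (S : Set V) := by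
        rw [coe_insert, SimpleGraph.isClique_insert]
        exact ⟨fun h => h.1, fun h => ⟨h, fun b hb _ => ((hB b).1 (hS hb)).2⟩⟩
      by_cases h3 : K.IsClique (S : Set V)
      · rw [if_pos h3, if_pos (h2.2 h3), card_insert_of_notMem hvS, pow_succ]
        ring
      · rw [if_neg h3, if_neg (fun h => h3 (h2.1 h)), mul_zero]
    · intro S hS hSB
      unfold tm
      refine if_neg fun h => hSB ?_
      rw [mem_powerset] at hS ⊢
      intro x hx
      refine (hB x).2 ⟨hS hx, h ?_ ?_ ?_⟩
      · rw [coe_insert]; exact Set.mem_insert _ _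
      · rw [coe_insert]; exact Set.mem_insert_of_mem _ hx
      · rintro rfl
        exact hv (hS hx)
  unfold chiF
  rw [sum_powerset_insert hv]
  unfold chiF at h1
  rw [h1]
  ring

theorem Chain.chi {V : Type} [DecidableEq V] {K : SimpleGraph V} {A : Finset V} {i : ℕ} (h : Chain K A i) :
    chiF K A ≠ 0 := by
  classical
  induction h with
  | nil =>
    unfold chiF tm
    rw [powerset_empty, sum_singleton, if_pos (by simp), card_empty, pow_zero]
    exact one_ne_zero
  | @cons A T i _ hT hadj ih =>
    obtain ⟨a, b, c, hab, hcb, hac, nab, ncb, rfl⟩ := hT.vertices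
    have ha : a ∉ A := fun h => adj_disj hadj h (by simp)
    have hb : b ∉ A := fun h => adj_disj hadj h (by simp)
    have hc : c ∉ A := fun h => adj_disj hadj h (by simp)
    have e1 : chiF K (insert a A) = 1 / 2 * chiF K A := by
      rw [chi_insert K A A a ha fun x => ⟨fun h => ⟨h, (hadj x h a (by simp)).symm⟩, fun h => h.1⟩]
      ring
    have e2 : chiF K (insert b (insert a A)) = 0 := by
      rw [chi_insert K (insert a A) A b (by simp [hb, hab.symm]) fun x => ?_, e1]
      · ring
      · constructor
        · exact fun h => ⟨mem_insert_of_mem h, (hadj x h b (by simp)).symm⟩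
        · rintro ⟨h1, h2⟩
          rcases mem_insert.1 h1 with rfl | h1
          · exact absurd h2.symm nab
          · exact h1
    have e3 : insert c (insert b (insert a A)) = A ∪ {a, b, c} := by
      ext x
      simp only [mem_insert, mem_union, mem_singleton]
      tauto
    rw [← e3]
    by_cases hca : K.Adj c a
    · rw [chi_insert K (insert b (insert a A)) (insert a A) c (by simp [hc, hcb, hac.symm]) fun x => ?_, e2, e1]
      · intro h
        apply ih
        linarith
      · constructor
        · intro h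
          refine ⟨mem_insert_of_mem h, ?_⟩
          rcases mem_insert.1 h with rfl | h
          · exact hca
          · exact (hadj x h c (by simp)).symm
        · rintro ⟨h1, h2⟩
          rcases mem_insert.1 h1 with rfl | h1
          · exact absurd h2 ncb
          · exact h1
    · rw [chi_insert K (insert b (insert a A)) A c (by simp [hc, hcb, hac.symm]) fun x => ?_, e2]
      · intro h
        apply ih
        linarith
      · constructor
        · intro h
          exact ⟨mem_insert_of_mem (mem_insert_of_mem h), (hadj x h c (by simp)).symm⟩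
        · rintro ⟨h1, h2⟩
          rcases mem_insert.1 h1 with rfl | h1
          · exact absurd h2 ncb
          · rcases mem_insert.1 h1 with rfl | h1
            · exact absurd h2 hca
            · exact h1

theorem Chain.not_van {V : Type} [Fintype V] [LinearOrder V] {K : SimpleGraph V} {A : Finset V} {i : ℕ}
    (h : Chain K A i) : ¬ L2Van (K.induce (A : Set V)) i := by
  classical
  intro hL
  have h1 := (l2eul ↥(A : Set V) (K.induce (A : Set V)) i fun j hj => h.lv j hj _ _).1 fun j => by
    by_cases hj : j = i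
    · rw [hj]
      exact hL
    · exact h.lv j hj _ _
  rw [chiW_induce] at h1
  apply h.chi
  unfold chiF
  rw [← h1, ← sum_filter]
  refine sum_congr ?_ fun _ _ => rfl
  ext S
  simp

/-- packings give nonzero `ℓ²`-homology of special subgroups -/
theorem exists_nonzero {V : Type} [Fintype V] [LinearOrder V] {K : SimpleGraph V} {k : ℕ} (h : Packing K k) (i : ℕ)
    (hi : i ≤ k) : ∃ A : Finset V, ¬ L2Van (K.induce (A : Set V)) i := by
  obtain ⟨A, hA⟩ := chain_of_packing h i hi
  exact ⟨A, hA.not_van⟩

end Pool.Agent.V5helper79.CC
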