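import Pool.Agent.V5helper79.CC.Flat
import Pool.Agent.V5helper79.CC.Conn
import Pool.Agent.N442.CL.Elim

/-!
# Project CC: complements of chordal graphs
-/

set_option autoImplicit false
set_option linter.unusedSectionVars false

namespace Pool.Agent.V5helper79.CC

open Finset Pool.Agent.W907.SG Pool.Agent.W907.SM Pool.Agent.V5helper75.BK

/-- The complement of the graph `K` is chordal: it has no induced cycle of length at least four. -/
def CoChordal {V : Type} (K : SimpleGraph V) : Prop :=
  ∀ n : ℕ, 4 ≤ n → IsEmpty (SimpleGraph.cycleGraph n ↪g Kᶜ)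

/-- Some subgroup `H` of finite index of the right-angled Coxeter group `W K` acts properly discontinuously by
homeomorphisms on a space `X` such that `X × X` is homeomorphic to the euclidean space of dimension `2 n`. -/
def ActsProperly {V : Type} (K : SimpleGraph V) (n : ℕ) : Prop :=
  ∃ (H : Subgroup (W K)) (X : Type) (_ : TopologicalSpace X) (_ : MulAction H X) (_ : ContinuousConstSMul H X)
    (_ : ProperlyDiscontinuousSMul H X), H.FiniteIndex ∧ Nonempty (X × X ≃ₜ (Fin (2 * n) → ℝ))

/-- the largest packing and the smallest covering have the same size -/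
theorem exists_size {V : Type} [Finite V] {K : SimpleGraph V} (h : CoChordal K) :
    ∃ k : ℕ, Packing K k ∧ Covering K k := by
  classical
  have : Fintype V := Fintype.ofFinite V
  obtain ⟨ρ, hρ, peo⟩ := Pool.Agent.N442.CL.exists_peo (G := Kᶜ) h
  obtain ⟨k, T, Q, h1, h2, h3, h4⟩ := min_max ρ hρ peo _ univ rfl
  exact ⟨k, ⟨T, fun i => (h1 i).1, h2⟩, ⟨Q, h3, fun S hS => h4 S hS (subset_univ S)⟩⟩

theorem Packing.mono {V : Type} {K : SimpleGraph V} {k i : ℕ} (h : Packing K k) (hi : i ≤ k) : Packing K i := by
  obtain ⟨T, h1, h2⟩ := h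
  exact ⟨fun j => T (Fin.castLE hi j), fun j => h1 _, fun j l hjl =>
    h2 _ _ fun e => hjl (Fin.castLE_injective hi e)⟩

/-- the `ℓ²`-homology is detected by flats -/
theorem geo_cochordal {V : Type} [Finite V] {K : SimpleGraph V} (h : CoChordal K) : Geo K := by
  obtain ⟨k, h1, h2⟩ := exists_size h
  intro i hi
  have h3 : i ≤ k := by
    by_contra h4
    exact hi ((Pool.Agent.TH652.Above.lv_univ K i).1 (van_cover h2 Set.univ i (by omega)))
  exact fl_packing (h1.mono h3)

/-- packings and proper actions -/
theorem packing_acts {V : Type} {K : SimpleGraph V} {k n : ℕ} (h : Packing K k) (h' : ActsProperly K n) :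
    2 * k ≤ n := by
  obtain ⟨H, X, _, _, _, _, hH, ⟨e⟩⟩ := h'
  exact fl_act ((fl_packing h).sub H hH) e

/-- flats and proper actions -/
theorem geo_acts {V : Type} {K : SimpleGraph V} (h : Geo K) {n : ℕ} (h' : ActsProperly K n) {i : ℕ} (hi : n < 2 * i) :
    LV K i := by
  obtain ⟨H, X, _, _, _, _, hH, ⟨e⟩⟩ := h'
  exact geo_act h H hH e hi

end Pool.Agent.V5helper79.CC
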