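import Pool.Agent.V5helper79.CC.Defs
import Pool.Agent.N13.EU.Core

/-!
# Project CC: coverings bound the degrees of the `ℓ²`-homology
-/

set_option autoImplicit false
set_option linter.unusedSectionVars false

namespace Pool.Agent.V5helper79.CC

open Pool.Agent.W907.SG Pool.Agent.W907.SM Pool.Agent.TH652.Above Pool.Agent.N13.EU

/-- no triples: the group is virtually abelian -/
theorem lv_zero_cover {V : Type} [Finite V] (K : SimpleGraph V) (D : Set V)
    (h : ∀ S, Triple K S → ¬ (S : Set V) ⊆ D) (i : ℕ) (hi : 1 ≤ i) : LV (K.induce D) i := by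
  classical
  have h2 : ∀ v ∈ D, ∀ x ∈ D, ∀ y ∈ D, x ≠ v → y ≠ v → x ≠ y → ¬ K.Adj v x → K.Adj v y := by
    intro v hv x hx y hy hxv hyv hxy h3
    by_contra h4
    refine h {v, x, y} ⟨?_, v, by simp, ?_⟩ ?_
    · rw [Finset.card_eq_three]
      exact ⟨v, x, y, hxv.symm, hyv.symm, hxy, rfl⟩
    · intro u hu
      simp only [Finset.mem_insert, Finset.mem_singleton] at hu
      rcases hu with rfl | rfl | rfl
      · exact K.loopless.irrefl _
      · exact h3
      · exact h4
    · intro u hu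
      simp only [Finset.coe_insert, Finset.coe_singleton, Set.mem_insert_iff, Set.mem_singleton_iff] at hu
      rcases hu with rfl | rfl | rfl <;> assumption
  by_cases h3 : ∃ v ∈ D, ∃ x ∈ D, x ≠ v ∧ ¬ K.Adj v x
  · obtain ⟨v, hv, x, hx, hxv, h4⟩ := h3
    refine lsusp _ _ (⟨v, hv⟩ : ↥D) ⟨x, hx⟩ i (fun e => hxv (congrArg Subtype.val e).symm) h4 ?_
    rintro ⟨u, hu⟩ hu1 hu2
    have hu1' : u ≠ v := fun e => hu1 (Subtype.ext e)
    have hu2' : u ≠ x := fun e => hu2 (Subtype.ext e)
    refine ⟨(h2 v hv x hx u hu hxv hu1' hu2'.symm h4).symm, ?_⟩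
    exact (h2 x hx v hv u hu hxv.symm hu2' hu1'.symm fun h => h4 h.symm).symm
  · push Not at h3
    exact lv_clique K D (fun a ha b hb hab => h3 a ha b hb hab.symm) i hi

/-- **coverings**, relative form -/
theorem lv_cover {V : Type} [Finite V] (K : SimpleGraph V) : ∀ (k : ℕ) (D : Set V) (Q : Fin k → Finset V),
    (∀ i, ∀ x ∈ Q i, ∀ y ∈ Q i, ¬ K.Adj x y) →
    (∀ S, Triple K S → (S : Set V) ⊆ D → ∃ i, ∃ x ∈ S, x ∈ Q i) →
    ∀ i, k < i → LV (K.induce D) i := by
  classical
  intro k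
  induction k with
  | zero =>
    intro D Q _ hQ i hi
    refine lv_zero_cover K D (fun S hS hSD => ?_) i hi
    obtain ⟨j, -⟩ := hQ S hS hSD
    exact j.elim0
  | succ k ih =>
    intro D Q hind hQ i hi
    refine ascend K D ((Q 0 : Finset V) : Set V)ᶜ i ?_ ?_ D Set.Subset.rfl
    · intro A hA hAU
      refine ih A (fun j => Q j.succ) (fun j => hind j.succ) (fun S hS hSA => ?_) i (by omega)
      obtain ⟨j, x, hx, hxQ⟩ := hQ S hS (hSA.trans hA)
      refine Fin.cases (fun h => ?_) (fun j h => ⟨j, x, hx, h⟩) j hxQ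
      exact absurd (Finset.mem_coe.2 h) (hAU (hSA (Finset.mem_coe.2 hx)))
    · intro w hw hwU Y hY j hj
      rw [Set.mem_compl_iff, not_not, Finset.mem_coe] at hwU
      refine ih Y (fun j => Q j.succ) (fun j => hind j.succ) (fun S hS hSY => ?_) j (by omega)
      obtain ⟨l, x, hx, hxQ⟩ := hQ S hS (fun u hu => (hY (hSY hu)).1)
      refine Fin.cases (fun h => ?_) (fun l h => ⟨l, x, hx, h⟩) l hxQ
      exact absurd (hY (hSY (Finset.mem_coe.2 hx))).2 (hind 0 w hwU x h)

/-- If the triples are covered by `k` independent sets then the `ℓ²`-homology of all special subgroups vanishes in the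
degrees greater than `k`. -/
theorem van_cover {V : Type} [Finite V] {K : SimpleGraph V} {k : ℕ} (h : Covering K k) (A : Set V) (i : ℕ)
    (hi : k < i) : LV (K.induce A) i := by
  obtain ⟨Q, h1, h2⟩ := h
  exact lv_cover K k A Q h1 (fun S hS _ => h2 S hS) i hi

end Pool.Agent.V5helper79.CC
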